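import Pool.Agent.H565R2.NS.Tsq
import Pool.Agent.H141R2.FS.Three

/-!
# Representations `n = x² + y² + z² + 2 w²` with a linear form in a small set
-/

set_option autoImplicit false

namespace Pool.Agent.P8H88.LRQ

/-- two odd, one even square -/
theorem formB_aux {N : ℕ} {x y z : ℤ} (h : x ^ 2 + y ^ 2 + z ^ 2 = 2 * (N : ℤ)) (hx : Odd x)
    (hy : Odd y) (hz : Even z) :
    ∃ A B C : ℤ, A ^ 2 + B ^ 2 + 2 * C ^ 2 = N ∧ Odd A ∧ Even B := by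
  obtain ⟨i, rfl⟩ := hx
  obtain ⟨j, rfl⟩ := hy
  obtain ⟨l, rfl⟩ := hz
  have h1 : (i + j + 1) ^ 2 + (i - j) ^ 2 + 2 * l ^ 2 = N := by
    have h2 : 2 * ((i + j + 1) ^ 2 + (i - j) ^ 2 + 2 * l ^ 2) = 2 * (N : ℤ) := by
      rw [← h]
      ring
    linarith
  rcases Int.even_or_odd (i - j) with h3 | h3
  · refine ⟨i + j + 1, i - j, l, h1, ?_, h3⟩
    obtain ⟨m, hm⟩ := h3
    exact ⟨m + j, by linarith⟩
  · refine ⟨i - j, i + j + 1, l, by rw [← h1]; ring, h3, ?_⟩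
    obtain ⟨m, hm⟩ := h3
    exact ⟨m + j + 1, by linarith⟩

/-- odd numbers are `A² + B² + 2 C²` with `A` odd, `B` even -/
theorem formB {N : ℕ} (hN : N % 2 = 1) :
    ∃ A B C : ℤ, A ^ 2 + B ^ 2 + 2 * C ^ 2 = N ∧ Odd A ∧ Even B := by
  obtain ⟨x, y, z, h⟩ := Pool.Agent.H565R2.NS.three_squares_two (m := 2 * N) (by omega)
  push_cast at h
  have h4 : ∀ u : ℤ, (Even u → u ^ 2 % 4 = 0) ∧ (Odd u → u ^ 2 % 4 = 1) := by
    intro u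
    constructor
    · rintro ⟨m, rfl⟩
      have : (m + m) ^ 2 = 4 * m ^ 2 := by ring
      omega
    · rintro ⟨m, rfl⟩
      have : (2 * m + 1) ^ 2 = 4 * (m ^ 2 + m) + 1 := by ring
      omega
  rcases Int.even_or_odd x with hx | hx <;> rcases Int.even_or_odd y with hy | hy <;>
    rcases Int.even_or_odd z with hz | hz
  · have := (h4 x).1 hx; have := (h4 y).1 hy; have := (h4 z).1 hz; omega
  · have := (h4 x).1 hx; have := (h4 y).1 hy; have := (h4 z).2 hz; omega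
  · have := (h4 x).1 hx; have := (h4 y).2 hy; have := (h4 z).1 hz; omega
  · exact formB_aux (x := y) (y := z) (z := x) (by linarith) hy hz hx
  · have := (h4 x).2 hx; have := (h4 y).1 hy; have := (h4 z).1 hz; omega
  · exact formB_aux (x := x) (y := z) (z := y) (by linarith) hx hz hy
  · exact formB_aux h hx hy hz
  · have := (h4 x).2 hx; have := (h4 y).2 hy; have := (h4 z).2 hz; omega

/-- an odd number or its negative is `-1` modulo `4` -/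
theorem sgn4 {A : ℤ} (hA : Odd A) : ∃ w : ℤ, A ^ 2 = (4 * w - 1) ^ 2 := by
  obtain ⟨m, rfl⟩ := hA
  rcases Int.even_or_odd m with h | h
  · obtain ⟨l, rfl⟩ := h
    exact ⟨-l, by ring⟩
  · obtain ⟨l, rfl⟩ := h
    exact ⟨l + 1, by ring⟩

/-- direction `(1, 0, 0, 0)` -/
theorem d1 {n : ℕ} (hn : 1 ≤ n) : ∃ x y z w : ℤ, (n : ℤ) = x ^ 2 + y ^ 2 + z ^ 2 + 2 * w ^ 2 ∧
    (x = 0 ∨ x = 1) := by
  rcases Nat.even_or_odd n with h | h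
  · obtain ⟨A, B, C, h1, -, -⟩ := formB (N := n - 1) (by obtain ⟨m, rfl⟩ := h; omega)
    refine ⟨1, A, B, C, ?_, Or.inr rfl⟩
    have : ((n - 1 : ℕ) : ℤ) = n - 1 := by push_cast [Nat.cast_sub hn]; ring
    rw [this] at h1
    linarith
  · obtain ⟨A, B, C, h1, -, -⟩ := formB (N := n) (by obtain ⟨m, rfl⟩ := h; omega)
    exact ⟨0, A, B, C, by rw [← h1]; ring, Or.inl rfl⟩

/-- direction `(0, 0, 0, 1)` -/
theorem d2 {n : ℕ} (hn : 1 ≤ n) : ∃ x y z w : ℤ, (n : ℤ) = x ^ 2 + y ^ 2 + z ^ 2 + 2 * w ^ 2 ∧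
    (w = 0 ∨ w = 1) := by
  have key : (∃ x y z : ℤ, x ^ 2 + y ^ 2 + z ^ 2 = n) ∨
      (∃ x y z : ℤ, x ^ 2 + y ^ 2 + z ^ 2 = ((n - 2 : ℕ) : ℤ) ∧ 2 ≤ n) := by
    rcases (show n % 4 = 0 ∨ n % 4 = 1 ∨ n % 4 = 2 ∨ n % 8 = 3 ∨ n % 8 = 7 by omega) with
      h | h | h | h | h
    · right
      obtain ⟨x, y, z, h1⟩ := Pool.Agent.H565R2.NS.three_squares_two (m := n - 2) (by omega)
      exact ⟨x, y, z, h1, by omega⟩
    · left
      exact Pool.Agent.H141R2.FS.three_squares_one h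
    · left
      exact Pool.Agent.H565R2.NS.three_squares_two h
    · left
      exact Pool.Agent.H591R2.three_squares h
    · right
      obtain ⟨x, y, z, h1⟩ := Pool.Agent.H141R2.FS.three_squares_one (m := n - 2) (by omega)
      exact ⟨x, y, z, h1, by omega⟩
  rcases key with ⟨x, y, z, h⟩ | ⟨x, y, z, h, h2⟩
  · exact ⟨x, y, z, 0, by rw [← h]; ring, Or.inl rfl⟩
  · refine ⟨x, y, z, 1, ?_, Or.inr rfl⟩
    rw [h, Nat.cast_sub h2]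
    push_cast
    ring

/-- direction `(1, 1, 0, 0)` -/
theorem d3 {n : ℕ} (hn : 1 ≤ n) : ∃ x y z w : ℤ, (n : ℤ) = x ^ 2 + y ^ 2 + z ^ 2 + 2 * w ^ 2 ∧
    x + y = 1 := by
  obtain ⟨A, B, C, h1, ⟨i, rfl⟩, ⟨j, rfl⟩⟩ := formB (N := 2 * n - 1) (by omega)
  have h2 : ((2 * n - 1 : ℕ) : ℤ) = 2 * n - 1 := by
    rw [Nat.cast_sub (by omega)]
    push_cast
    ring
  rw [h2] at h1
  refine ⟨i + 1, -i, C, j, ?_, by ring⟩
  nlinarith [h1]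

/-- direction `(1, 1, 0, 2)` -/
theorem d4 {n : ℕ} (hn : 1 ≤ n) : ∃ x y z w : ℤ, (n : ℤ) = x ^ 2 + y ^ 2 + z ^ 2 + 2 * w ^ 2 ∧
    x + y + 2 * w = 1 := by
  obtain ⟨A, B, C, h1, hA, ⟨j, rfl⟩⟩ := formB (N := 4 * n - 1) (by omega)
  have h2 : ((4 * n - 1 : ℕ) : ℤ) = 4 * n - 1 := by
    rw [Nat.cast_sub (by omega)]
    push_cast
    ring
  rw [h2] at h1
  obtain ⟨w, hw⟩ := sgn4 hA
  rw [hw] at h1
  have hC : Odd C := by
    rw [← Int.not_even_iff_odd]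
    rintro ⟨l, rfl⟩
    have : 4 * (4 * w ^ 2 - 2 * w + j ^ 2 + 2 * l ^ 2) + 1 = 4 * (n : ℤ) - 1 := by
      rw [← h1]
      ring
    omega
  obtain ⟨t, rfl⟩ := hC
  refine ⟨1 - w + t, -w - t, j, w, ?_, by ring⟩
  nlinarith [h1]

/-- direction `(2, 1, 1, 2)` -/
theorem d5 {n : ℕ} (hn : 1 ≤ n) : ∃ x y z w : ℤ, (n : ℤ) = x ^ 2 + y ^ 2 + z ^ 2 + 2 * w ^ 2 ∧
    2 * x + y + z + 2 * w = 2 := by
  obtain ⟨A, B, C, h1, ⟨i, rfl⟩, ⟨q, rfl⟩⟩ := formB (N := 2 * n - 1) (by omega)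
  have h2 : ((2 * n - 1 : ℕ) : ℤ) = 2 * n - 1 := by
    rw [Nat.cast_sub (by omega)]
    push_cast
    ring
  rw [h2] at h1
  -- `α = C mod 2`, `(2 α - 1)² = A²`
  obtain ⟨α, m, hα, hm⟩ : ∃ α m : ℤ, (2 * i + 1) ^ 2 = (2 * α - 1) ^ 2 ∧ α = C + 2 * m := by
    rcases Int.even_or_odd (i + 1 - C) with ⟨l, hl⟩ | ⟨l, hl⟩
    · exact ⟨i + 1, l, by ring, by linarith⟩
    · exact ⟨-i, -(C + l), by ring, by linarith⟩
  rw [hα] at h1
  refine ⟨1 - α, m + q, m - q, C + m, ?_, ?_⟩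
  · rw [hm] at h1 ⊢
    nlinarith [h1]
  · rw [hm]
    ring

/-- direction `(3, 2, 1, 2)` -/
theorem d6 {n : ℕ} (hn : 1 ≤ n) : ∃ x y z w : ℤ, (n : ℤ) = x ^ 2 + y ^ 2 + z ^ 2 + 2 * w ^ 2 ∧
    3 * x + 2 * y + z + 2 * w = 2 := by
  obtain ⟨A, B, C, h1, hA, ⟨β, rfl⟩⟩ := formB (N := 4 * n - 1) (by omega)
  have h2 : ((4 * n - 1 : ℕ) : ℤ) = 4 * n - 1 := by
    rw [Nat.cast_sub (by omega)]
    push_cast
    ring
  rw [h2] at h1
  obtain ⟨p, hp⟩ := sgn4 hA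
  rw [hp] at h1
  have hC : Odd C := by
    rw [← Int.not_even_iff_odd]
    rintro ⟨l, rfl⟩
    have : 4 * (4 * p ^ 2 - 2 * p + β ^ 2 + 2 * l ^ 2) + 1 = 4 * (n : ℤ) - 1 := by
      rw [← h1]
      ring
    omega
  -- `ε = ± C` with `(1 - 2 p - ε) / 2 = β` modulo `2`
  obtain ⟨ε, m, hε, hm⟩ : ∃ ε m : ℤ, C ^ 2 = ε ^ 2 ∧ 1 - 2 * p - ε = 2 * (β + 2 * m) := by
    obtain ⟨t, rfl⟩ := hC
    rcases Int.even_or_odd (- p - t - β) with ⟨l, hl⟩ | ⟨l, hl⟩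
    · exact ⟨2 * t + 1, l, by ring, by linarith⟩
    · exact ⟨-(2 * t + 1), t + 1 + l, by ring, by linarith⟩
  rw [hε] at h1
  obtain rfl : ε = 1 - 2 * p - 2 * (β + 2 * m) := by linarith
  refine ⟨p + (β + m), 1 - 2 * p - (β + 2 * m), p - (β + m), m, ?_, by ring⟩
  nlinarith [h1]

end Pool.Agent.P8H88.LRQ
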