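import Pool.Agent.P8H88.LRQ.Core

/-!
# Two more directions
-/

set_option autoImplicit false

namespace Pool.Agent.P8H88.LRQ

/-- an odd number or its negative is in a given odd class modulo `4` -/
theorem sgnb {b u : ℤ} (hb : Odd b) (hu : Odd u) : ∃ m : ℤ, b ^ 2 = (u + 4 * m) ^ 2 := by
  obtain ⟨i, rfl⟩ := hb
  obtain ⟨j, rfl⟩ := hu
  rcases Int.even_or_odd (i - j) with ⟨l, hl⟩ | ⟨l, hl⟩
  · obtain rfl : i = j + (l + l) := by linarith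
    exact ⟨l, by ring⟩
  · obtain rfl : i = j + (2 * l + 1) := by linarith
    exact ⟨-(j + l + 1), by ring⟩

/-- the forms of `8 n - 1` -/
theorem form8 {n : ℕ} (hn : 1 ≤ n) : ∃ p c r : ℤ,
    (4 * p - 1) ^ 2 + 4 * r ^ 2 + 2 * (4 * c - 1) ^ 2 = 8 * (n : ℤ) - 1 ∧ Odd r := by
  obtain ⟨A, B, C, h1, hA, ⟨r, rfl⟩⟩ := formB (N := 8 * n - 1) (by omega)
  have h2 : ((8 * n - 1 : ℕ) : ℤ) = 8 * n - 1 := by
    rw [Nat.cast_sub (by omega)]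
    push_cast
    ring
  rw [h2] at h1
  obtain ⟨p, hp⟩ := sgn4 hA
  rw [hp] at h1
  have hC : Odd C := by
    rw [← Int.not_even_iff_odd]
    rintro ⟨l, rfl⟩
    have : 4 * (4 * p ^ 2 - 2 * p + r ^ 2 + 2 * l ^ 2) + 1 = 8 * (n : ℤ) - 1 := by
      rw [← h1]
      ring
    omega
  obtain ⟨c, hc⟩ := sgn4 hC
  rw [hc] at h1
  refine ⟨p, c, r, by rw [← h1]; ring, ?_⟩
  rw [← Int.not_even_iff_odd]
  rintro ⟨l, rfl⟩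
  have : 8 * (2 * p ^ 2 - p + 2 * l ^ 2 + 4 * c ^ 2 - 2 * c) + 3 = 8 * (n : ℤ) - 1 := by
    rw [← h1]
    ring
  omega

/-- direction `(5, 2, 1, 2)` -/
theorem d7 {n : ℕ} (hn : 1 ≤ n) : ∃ x y z w : ℤ, (n : ℤ) = x ^ 2 + y ^ 2 + z ^ 2 + 2 * w ^ 2 ∧
    5 * x + 2 * y + z + 2 * w = 2 := by
  obtain ⟨p, c, r, h1, hr⟩ := form8 hn
  rcases Int.even_or_odd p with ⟨q, rfl⟩ | ⟨q, rfl⟩
  · obtain ⟨m, hm⟩ := sgnb hr (u := 1 + 2 * c - 2 * q) ⟨c - q, by ring⟩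
    rw [hm] at h1
    refine ⟨-m, 1 - 2 * q + 2 * m, -2 * c + 2 * q - m, c + q + m, ?_, by ring⟩
    nlinarith [h1]
  · obtain ⟨m, hm⟩ := sgnb hr (u := 1 - 2 * q - 2 * c) ⟨- q - c, by ring⟩
    rw [hm] at h1
    refine ⟨-m, -2 * q + 2 * m, 2 * q + 2 * c - m, 1 - c + q + m, ?_, by ring⟩
    nlinarith [h1]

/-- direction `(3, 2, 1, 6)` -/
theorem d8 {n : ℕ} (hn : 1 ≤ n) : ∃ x y z w : ℤ, (n : ℤ) = x ^ 2 + y ^ 2 + z ^ 2 + 2 * w ^ 2 ∧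
    3 * x + 2 * y + z + 6 * w = 2 := by
  obtain ⟨p, c, r, h1, hr⟩ := form8 hn
  rcases Int.even_or_odd p with ⟨q, rfl⟩ | ⟨q, rfl⟩
  · obtain ⟨m, hm⟩ := sgnb hr (u := -1 + 2 * q + 6 * c) ⟨q + 3 * c - 1, by ring⟩
    rw [hm] at h1
    refine ⟨-m, 1 - 2 * q - 4 * c - 2 * m, -2 * q + 2 * c + m, q + c + m, ?_, by ring⟩
    nlinarith [h1]
  · obtain ⟨m, hm⟩ := sgnb hr (u := 3 + 2 * q - 6 * c) ⟨q - 3 * c + 1, by ring⟩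
    rw [hm] at h1
    refine ⟨-m, -2 + 4 * c - 2 * q - 2 * m, -2 * q - 2 * c + m, 1 + q - c + m, ?_, by ring⟩
    nlinarith [h1]

end Pool.Agent.P8H88.LRQ
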