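import Pool.Agent.P8H88.LRQ.More

/-!
# The direction `(2, 0, 0, 1)`
-/

set_option autoImplicit false

namespace Pool.Agent.P8H88.LRQ

theorem sq3 (A : ℤ) : (A % 3 = 0 ∧ A ^ 2 % 3 = 0) ∨ (A % 3 ≠ 0 ∧ A ^ 2 % 3 = 1) := by
  obtain ⟨q, r, hq, hr⟩ : ∃ q r : ℤ, A = 3 * q + r ∧ (r = 0 ∨ r = 1 ∨ r = 2) :=
    ⟨A / 3, A % 3, by omega, by omega⟩
  rcases hr with rfl | rfl | rfl
  · left
    subst hq
    have : (3 * q + 0) ^ 2 = 3 * (3 * q ^ 2) := by ring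
    omega
  · right
    subst hq
    have : (3 * q + 1) ^ 2 = 3 * (3 * q ^ 2 + 2 * q) + 1 := by ring
    omega
  · right
    subst hq
    have : (3 * q + 2) ^ 2 = 3 * (3 * q ^ 2 + 4 * q + 1) + 1 := by ring
    omega

/-- a sum of three squares which is `1` modulo `3` -/
theorem pat {A B C N : ℤ} (h : A ^ 2 + B ^ 2 + C ^ 2 = N) (hN : N % 3 = 1) :
    ∃ t y z : ℤ, t ^ 2 + 9 * y ^ 2 + 9 * z ^ 2 = N ∧ t % 3 ≠ 0 := by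
  rcases sq3 A with ⟨a1, a2⟩ | ⟨a1, a2⟩ <;> rcases sq3 B with ⟨b1, b2⟩ | ⟨b1, b2⟩ <;>
    rcases sq3 C with ⟨c1, c2⟩ | ⟨c1, c2⟩
  · omega
  · obtain ⟨a, rfl⟩ : ∃ a, A = 3 * a := ⟨A / 3, by omega⟩
    obtain ⟨b, rfl⟩ : ∃ b, B = 3 * b := ⟨B / 3, by omega⟩
    exact ⟨C, a, b, by rw [← h]; ring, c1⟩
  · obtain ⟨a, rfl⟩ : ∃ a, A = 3 * a := ⟨A / 3, by omega⟩
    obtain ⟨c, rfl⟩ : ∃ c, C = 3 * c := ⟨C / 3, by omega⟩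
    exact ⟨B, a, c, by rw [← h]; ring, b1⟩
  · omega
  · obtain ⟨b, rfl⟩ : ∃ b, B = 3 * b := ⟨B / 3, by omega⟩
    obtain ⟨c, rfl⟩ : ∃ c, C = 3 * c := ⟨C / 3, by omega⟩
    exact ⟨A, b, c, by rw [← h]; ring, a1⟩
  · omega
  · omega
  · omega

/-- squares modulo `9` -/
theorem sgn9 {t : ℤ} (ht : t % 3 ≠ 0) : ∃ m : ℤ, (t ^ 2 = (9 * m + 1) ^ 2 ∧ t ^ 2 % 9 = 1) ∨
    (t ^ 2 = (9 * m + 2) ^ 2 ∧ t ^ 2 % 9 = 4) ∨ (t ^ 2 = (9 * m + 5) ^ 2 ∧ t ^ 2 % 9 = 7) := by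
  obtain ⟨q, r, hq, hr⟩ : ∃ q r : ℤ, t = 9 * q + r ∧
      (r = 1 ∨ r = 2 ∨ r = 4 ∨ r = 5 ∨ r = 7 ∨ r = 8) := ⟨t / 9, t % 9, by omega, by omega⟩
  subst hq
  rcases hr with rfl | rfl | rfl | rfl | rfl | rfl
  · refine ⟨q, Or.inl ⟨rfl, ?_⟩⟩
    have : (9 * q + 1) ^ 2 = 9 * (9 * q ^ 2 + 2 * q) + 1 := by ring
    omega
  · refine ⟨q, Or.inr (Or.inl ⟨rfl, ?_⟩)⟩
    have : (9 * q + 2) ^ 2 = 9 * (9 * q ^ 2 + 4 * q) + 4 := by ring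
    omega
  · refine ⟨-q - 1, Or.inr (Or.inr ⟨by ring, ?_⟩)⟩
    have : (9 * q + 4) ^ 2 = 9 * (9 * q ^ 2 + 8 * q + 1) + 7 := by ring
    omega
  · refine ⟨q, Or.inr (Or.inr ⟨rfl, ?_⟩)⟩
    have : (9 * q + 5) ^ 2 = 9 * (9 * q ^ 2 + 10 * q + 2) + 7 := by ring
    omega
  · refine ⟨-q - 1, Or.inr (Or.inl ⟨by ring, ?_⟩)⟩
    have : (9 * q + 7) ^ 2 = 9 * (9 * q ^ 2 + 14 * q + 5) + 4 := by ring
    omega
  · refine ⟨-q - 1, Or.inl ⟨by ring, ?_⟩⟩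
    have : (9 * q + 8) ^ 2 = 9 * (9 * q ^ 2 + 16 * q + 7) + 1 := by ring
    omega

/-- direction `(2, 0, 0, 1)` -/
theorem d9 {n : ℕ} (hn : 1 ≤ n) : ∃ x y z w : ℤ, (n : ℤ) = x ^ 2 + y ^ 2 + z ^ 2 + 2 * w ^ 2 ∧
    (2 * x + w = 1 ∨ 2 * x + w = 2) := by
  have key : (∃ x y z : ℤ, x ^ 2 + y ^ 2 + z ^ 2 = ((9 * n - 2 : ℕ) : ℤ)) ∨
      (∃ x y z : ℤ, x ^ 2 + y ^ 2 + z ^ 2 = ((9 * n - 8 : ℕ) : ℤ)) := by
    rcases (show n % 4 = 0 ∨ n % 4 = 1 ∨ n % 4 = 2 ∨ n % 8 = 3 ∨ n % 8 = 7 by omega) with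
      h | h | h | h | h
    · left
      exact Pool.Agent.H565R2.NS.three_squares_two (by omega)
    · right
      exact Pool.Agent.H141R2.FS.three_squares_one (by omega)
    · right
      exact Pool.Agent.H565R2.NS.three_squares_two (by omega)
    · right
      exact Pool.Agent.H591R2.three_squares (by omega)
    · left
      exact Pool.Agent.H141R2.FS.three_squares_one (by omega)
  rcases key with ⟨A, B, C, h⟩ | ⟨A, B, C, h⟩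
  · have h2 : ((9 * n - 2 : ℕ) : ℤ) = 9 * n - 2 := by
      rw [Nat.cast_sub (by omega)]
      push_cast
      ring
    rw [h2] at h
    obtain ⟨t, y, z, h3, h4⟩ := pat h (by omega)
    obtain ⟨m, hm⟩ := sgn9 h4
    have h5 : t ^ 2 = (9 * m + 5) ^ 2 := by
      rcases hm with ⟨_, h6⟩ | ⟨_, h6⟩ | ⟨h6, _⟩
      · omega
      · omega
      · exact h6
    rw [h5] at h3
    refine ⟨m + 1, y, z, -2 * m - 1, ?_, Or.inl (by ring)⟩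
    nlinarith [h3]
  · have h2 : ((9 * n - 8 : ℕ) : ℤ) = 9 * n - 8 := by
      rw [Nat.cast_sub (by omega)]
      push_cast
      ring
    rw [h2] at h
    obtain ⟨t, y, z, h3, h4⟩ := pat h (by omega)
    obtain ⟨m, hm⟩ := sgn9 h4
    have h5 : t ^ 2 = (9 * m + 1) ^ 2 := by
      rcases hm with ⟨h6, _⟩ | ⟨_, h6⟩ | ⟨_, h6⟩
      · exact h6
      · omega
      · omega
    rw [h5] at h3
    refine ⟨m + 1, y, z, -2 * m, ?_, Or.inr (by ring)⟩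
    nlinarith [h3]

end Pool.Agent.P8H88.LRQ
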